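import Mathlib
import Pool.Agent.MP_6c3157_co.LG.AllU

set_option autoImplicit false

namespace Pool.Agent.Results.MP_6c3157_co.GridPins

/-- For every subset `Y` of the `N × N` integer grid and every `δ` between `N ^ (-1/100)` and a
constant, all but `δ N²` points of the grid see at least
`|Y| / (√(log N) · exp (C log (1/δ) / log log (1/δ)))` different nonzero distances to `Y`. -/
theorem result :
    ∃ (C δ₀ : ℝ) (N₀ : ℕ), 0 < δ₀ ∧ ∀ N : ℕ, N₀ ≤ N →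
      ∀ δ : ℝ, (N : ℝ) ^ (-1 / 100 : ℝ) ≤ δ → δ ≤ δ₀ →
      ∀ Y : Finset (EuclideanSpace ℝ (Fin 2)), (∀ y ∈ Y, ∀ i, ∃ k : ℕ, k < N ∧ y i = k) →
      ∃ E : Finset (EuclideanSpace ℝ (Fin 2)), (E.card : ℝ) ≤ δ * (N : ℝ) ^ 2 ∧
        ∀ x : EuclideanSpace ℝ (Fin 2), (∀ i, ∃ k : ℕ, k < N ∧ x i = k) → x ∉ E →
          (Y.card : ℝ) / (√(Real.log N) * Real.exp (C * (Real.log (1 / δ) /
            Real.log (Real.log (1 / δ))))) ≤ ((Y.image fun y => dist x y).erase 0).card :=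
  Pool.Agent.MP_6c3157_co.LG.all_mainu

/-- The form of the problem: in a subset `P` of the grid with at least `2 δ N²` points, at least
half of the points see `|P| / (√(log |P|) · exp (C log (1/δ) / log log (1/δ)))` distances. -/
theorem dense :
    ∃ (C δ₀ : ℝ) (N₀ : ℕ), 0 < δ₀ ∧ ∀ N : ℕ, N₀ ≤ N →
      ∀ δ : ℝ, (N : ℝ) ^ (-1 / 100 : ℝ) ≤ δ → δ ≤ δ₀ →
      ∀ P : Finset (EuclideanSpace ℝ (Fin 2)), (∀ y ∈ P, ∀ i, ∃ k : ℕ, k < N ∧ y i = k) →
      2 * (δ * (N : ℝ) ^ 2) ≤ P.card →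
      ∃ E : Finset (EuclideanSpace ℝ (Fin 2)), (E.card : ℝ) ≤ P.card / 2 ∧ ∀ x ∈ P, x ∉ E →
        (P.card : ℝ) / (√(Real.log P.card) * Real.exp (C * (Real.log (1 / δ) /
          Real.log (Real.log (1 / δ))))) ≤ ((P.image fun y => dist x y).erase 0).card := by
  obtain ⟨C, δ₀, N₀, h0, h⟩ := result
  refine ⟨C, δ₀, max N₀ 2, h0, fun N hN δ d1 d2 P hP hc => ?_⟩
  obtain ⟨E, e1, e2⟩ := h N (le_of_max_le_left hN) δ d1 d2 P hP
  refine ⟨E, by linarith, fun x hx k => le_trans ?_ (e2 x (hP x hx) k)⟩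
  have N1 : (1 : ℝ) < N := by exact_mod_cast (le_of_max_le_right hN : 2 ≤ N)
  have N0 : (0 : ℝ) < N := by linarith
  have a : (N : ℝ)⁻¹ ≤ δ := by
    refine le_trans ?_ d1
    rw [← Real.rpow_neg_one]
    exact Real.rpow_le_rpow_of_exponent_le N1.le (by norm_num)
  have b : (N : ℝ) ≤ P.card := by
    have : (N : ℝ)⁻¹ * (N : ℝ) ^ 2 = N := by field_simp
    nlinarith [mul_le_mul_of_nonneg_right a (sq_nonneg (N : ℝ))]
  have c := Real.sqrt_pos.2 (Real.log_pos N1)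
  gcongr

end Pool.Agent.Results.MP_6c3157_co.GridPins
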