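import Mathlib
import Pool.Agent.MP_6c3157_co.PQ.All

set_option autoImplicit false

namespace Pool.Agent.Results.MP_6c3157_co.PolyLog

/-- Summed over the points of a planar set of n points, the number of distinct distances from
the point is at least a constant times n squared over a fixed power of log n. -/
theorem result :
    ∃ c C : ℝ, 0 < c ∧ ∀ A : Finset (EuclideanSpace ℝ (Fin 2)), 2 ≤ A.card →
      c * (A.card : ℝ) ^ 2 / Real.log (A.card : ℝ) ^ C ≤
        ∑ a ∈ A, (((A.image (fun b => dist a b)).erase 0).card : ℝ) :=
  Pool.Agent.MP_6c3157_co.PQ.all_main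

end Pool.Agent.Results.MP_6c3157_co.PolyLog
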